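import Mathlib
import Pool.Agent.H83.LR3

/-! The linear refinement number is a regular cardinal. -/

namespace Pool.Agent.Results.MP_540072_lc.LrIsRegular

open Set Cardinal

/-- `B ⊆* A`: all but finitely many members of `B` are in `A`. -/
def AlmostSubset (B A : Set ℕ) : Prop := (B \ A).Finite

/-- A family of subsets of `ℕ` is centered if the intersection of any finitely many of its
members is infinite (in particular all its members are infinite). -/
def IsCentered (F : Set (Set ℕ)) : Prop :=
  ∀ S : Set (Set ℕ), S ⊆ F → S.Finite → (⋂₀ S).Infinite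

/-- A family of infinite subsets of `ℕ` is linear if `⊆*` linearly (pre)orders it. -/
def IsLinear (G : Set (Set ℕ)) : Prop :=
  (∀ B ∈ G, B.Infinite) ∧ ∀ B ∈ G, ∀ C ∈ G, AlmostSubset B C ∨ AlmostSubset C B

/-- `F` has a linear refinement: a linear family `G` such that every `A ∈ F` has some `B ∈ G`
with `B ⊆* A`. -/
def HasLinearRefinement (F : Set (Set ℕ)) : Prop :=
  ∃ G : Set (Set ℕ), IsLinear G ∧ ∀ A ∈ F, ∃ B ∈ G, AlmostSubset B A

/-- The linear refinement number: the least cardinality of a centered family with no linear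
refinement. -/
noncomputable def lr : Cardinal.{0} :=
  sInf {κ | ∃ F : Set (Set ℕ), IsCentered F ∧ ¬ HasLinearRefinement F ∧ #F = κ}

/-- The least cardinality in the definition of `lr` is attained, and `lr` is regular. -/
theorem result :
    (∃ F : Set (Set ℕ), IsCentered F ∧ ¬ HasLinearRefinement F ∧ #F = lr) ∧ lr.IsRegular := by
  classical
  have hne : {κ : Cardinal.{0} |
      ∃ F : Set (Set ℕ), IsCentered F ∧ ¬ HasLinearRefinement F ∧ #F = κ}.Nonempty := by
    obtain ⟨F, h1, h2⟩ := H83.LR.exists_bad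
    exact ⟨#F, F, h1, h2, rfl⟩
  have hmem : ∃ F : Set (Set ℕ), IsCentered F ∧ ¬ HasLinearRefinement F ∧ #F = lr :=
    csInf_mem hne
  refine ⟨hmem, ?_⟩
  obtain ⟨F, hF, hFno, hFc⟩ := hmem
  -- `lr` is infinite
  have hinf : ℵ₀ ≤ lr := by
    by_contra hlt
    rw [not_le, ← hFc] at hlt
    have hfin : F.Finite := lt_aleph0_iff_set_finite.1 hlt
    have h1 : (⋂₀ F).Infinite := hF F subset_rfl hfin
    refine hFno ⟨{⋂₀ F}, ⟨?_, ?_⟩, ?_⟩
    · rintro _ rfl; exact h1
    · rintro _ rfl _ rfl
      left
      simp [AlmostSubset]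
    · intro A hA
      refine ⟨_, rfl, ?_⟩
      have : ⋂₀ F ⊆ A := sInter_subset_of_mem hA
      simp [AlmostSubset, sdiff_eq_empty.2 this]
  refine IsRegular.of_not_isSingular hinf ?_
  intro hs
  have hcof : lr.ord.cof < lr := hs.cof_ord_lt
  have hlt : ℵ₀ < lr := by
    refine lt_of_le_of_ne hinf ?_
    intro heq
    rw [← heq] at hs
    exact not_isSingular_aleph0 hs
  have hL : H83.LR.LProp ℕ lr := by
    intro E hE hEl
    by_contra hno
    have h1 : lr ≤ #E := csInf_le' ⟨E, hE, hno, rfl⟩
    exact absurd hEl (not_lt.2 h1)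
  exact hFno (H83.LR.final hlt hcof hL F hF hFc.le)

end Pool.Agent.Results.MP_540072_lc.LrIsRegular
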